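import Pool.Agent.Q180.FN.Graph

/-!
# Flat versus free fundamental modules on infinite `∂`-graphs

An infinite `∂`-graph all fundamental modules of which are flat, but not all of which are free.
`BGraph`, `BGraph.lap`, `BGraph.IsNetwork`, `BGraph.Fund` are defined in `Pool.Agent.Q180.FN.Defs`.
-/

set_option autoImplicit false

namespace Pool.Agent.Results.MP_2ddb17_co.FlatNotFree

open Pool.Agent.Q180.FN

universe u

/-- There is an infinite `∂`-graph `G` such that the fundamental module `R V / L (R V°)` is a flat
`R`-module for every commutative ring `R` and every `R^×`-network on `G`, while it is not a free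
module for some `ℤ^×`-network on `G` all weights of which are `1`. -/
theorem result : ∃ G : BGraph, Infinite G.V ∧
    (∀ (R : Type u) [CommRing R] (w : G.E → R) (d : G.V → R), G.IsNetwork w →
      Module.Flat R (G.Fund w d)) ∧
    ∃ (w : G.E → ℤ) (d : G.V → ℤ), (∀ e, w e = 1) ∧ G.IsNetwork w ∧
      ¬ Module.Free ℤ (G.Fund w d) :=
  ⟨gr, inferInstanceAs (Infinite (Fin 3 × ℕ)), flat, w1, dd, fun _ => rfl, network_w1, not_free⟩

end Pool.Agent.Results.MP_2ddb17_co.FlatNotFree
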